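import Mathlib

/-!
# Cubic graphs with resistance two and large flow resistance

For every `N` there is a bridgeless cubic graph `G` with resistance `r(G) ≤ 2` and flow resistance
`r_f(G) ≥ N`. The graph is a chain: a Petersen graph with a special vertex `v`; between `v` and its
neighbours one inserts again and again a block with twelve vertices (a spacer with four vertices
followed by a Petersen graph without two vertices at distance two). A 4-flow is conserved at
every 3-edge-cut, so each of the disjoint pieces that contract to the Petersen graph has an edge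
with value zero; but a defect of a proper colouring can travel through the whole chain, so two edges
with the fourth colour, one at each end, suffice.
-/

set_option autoImplicit false
set_option maxRecDepth 100000

namespace Pool.Agent.Results.MP_c254db_co.UnboundedRatio

open Finset

/-- A cubic multigraph with vertex set `V`. Every vertex `v` has the three half-edges `(v, 0)`,
`(v, 1)`, `(v, 2)`, and the involution `inv` sends a half-edge to the other half of its edge; so the
edges are the pairs `{d, inv d}`, and the end vertex of the half-edge `d` is `d.1`. -/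
structure CubicGraph (V : Type) where
  /-- the other half of the edge -/
  inv : V × Fin 3 → V × Fin 3
  inv_inv : ∀ d, inv (inv d) = d
  inv_ne : ∀ d, inv d ≠ d

namespace CubicGraph

variable {V : Type} [Fintype V] [DecidableEq V] (G : CubicGraph V)

/-- No edge is a cut-edge: for every set `S` of vertices the number of edges with exactly one end
in `S` is not `1`. (Every such edge has exactly one half-edge `d` with `d.1 ∈ S` and
`(inv d).1 ∉ S`.) -/
def Bridgeless : Prop :=
  ∀ S : Finset V, #{d : V × Fin 3 | d.1 ∈ S ∧ (G.inv d).1 ∉ S} ≠ 1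

/-- A proper 4-edge-colouring: both halves of an edge have the same colour, and the three
half-edges at a vertex have different colours. -/
def ProperColouring (c : V × Fin 3 → Fin 4) : Prop :=
  (∀ d, c (G.inv d) = c d) ∧ ∀ v i j, i ≠ j → c (v, i) ≠ c (v, j)

/-- A 4-flow: `φ d` is the value of the flow on the edge of `d`, measured in the direction that
leaves the vertex `d.1` through `d`. Reversing the direction changes the sign, the absolute values
are at most `3`, and the sum over the half-edges at every vertex is `0`. -/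
def FourFlow (φ : V × Fin 3 → ℤ) : Prop :=
  (∀ d, φ (G.inv d) = - φ d) ∧ (∀ d, |φ d| ≤ 3) ∧ ∀ v, ∑ i, φ (v, i) = 0

/-- The resistance: the smallest size of a colour class of a proper 4-edge-colouring. A set of `k`
edges has `2 k` half-edges. -/
noncomputable def resistance : ℕ :=
  sInf {k | ∃ (c : V × Fin 3 → Fin 4) (x : Fin 4), G.ProperColouring c ∧
    2 * k = #{d : V × Fin 3 | c d = x}}

/-- The flow resistance: the smallest number of edges with value `0` in a 4-flow. -/
noncomputable def flowResistance : ℕ :=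
  sInf {k | ∃ φ : V × Fin 3 → ℤ, G.FourFlow φ ∧ 2 * k = #{d : V × Fin 3 | φ d = 0}}

end CubicGraph

/-! ### Cuts -/

section
variable {V : Type} [Fintype V] [DecidableEq V] (G : CubicGraph V)

theorem cut_sum {φ : V × Fin 3 → ℤ} (h1 : ∀ d, φ (G.inv d) = - φ d)
    (h2 : ∀ v, ∑ i, φ (v, i) = 0) (S : Finset V) :
    ∑ d : V × Fin 3 with d.1 ∈ S ∧ (G.inv d).1 ∉ S, φ d = 0 := by
  have hA : ∑ d : V × Fin 3 with d.1 ∈ S, φ d = 0 := by
    have e : (univ.filter fun d : V × Fin 3 => d.1 ∈ S) = S ×ˢ univ := by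
      ext d; simp [Finset.mem_product]
    rw [e, Finset.sum_product]
    exact Finset.sum_eq_zero fun v _ => h2 v
  have hB : ∑ d : V × Fin 3 with d.1 ∈ S ∧ (G.inv d).1 ∈ S, φ d = 0 := by
    apply Finset.sum_involution (fun d _ => G.inv d)
    · intro d _; rw [h1]; ring
    · intro d _ _; exact G.inv_ne d
    · intro d hd
      simp only [mem_filter, mem_univ, true_and] at hd ⊢
      rw [G.inv_inv]; exact ⟨hd.2, hd.1⟩
    · intro d _; exact G.inv_inv d
  have hC : ∑ d : V × Fin 3 with d.1 ∈ S, φ d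
      = ∑ d : V × Fin 3 with d.1 ∈ S ∧ (G.inv d).1 ∈ S, φ d
        + ∑ d : V × Fin 3 with d.1 ∈ S ∧ (G.inv d).1 ∉ S, φ d := by
    rw [← Finset.sum_filter_add_sum_filter_not (univ.filter fun d : V × Fin 3 => d.1 ∈ S)
      (fun d => (G.inv d).1 ∈ S)]
    rw [Finset.filter_filter, Finset.filter_filter]
  rw [hA, hB, zero_add] at hC
  exact hC.symm

theorem bridgeless_of_flow {φ : V × Fin 3 → ℤ} (h1 : ∀ d, φ (G.inv d) = - φ d)
    (h2 : ∀ v, ∑ i, φ (v, i) = 0) (h3 : ∀ d, φ d ≠ 0) : G.Bridgeless := by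
  intro S hS
  obtain ⟨d, hd⟩ := Finset.card_eq_one.1 hS
  have := cut_sum G h1 h2 S
  rw [hd, Finset.sum_singleton] at this
  exact h3 d this

end

/-- The Petersen graph has no nowhere-zero 4-flow. -/
theorem petersen (x0 x1 x2 x3 x4 x5 x6 x7 x8 x9 x10 x11 x12 x13 x14 : ℤ)
    (h0 : x0 + (-x4) + x5 = 0)
    (h1 : (-x0) + x1 + x6 = 0)
    (h2 : (-x1) + x2 + x7 = 0)
    (h3 : (-x2) + x3 + x8 = 0)
    (h4 : (-x3) + x4 + x9 = 0)
    (h5 : (-x5) + x10 + (-x13) = 0)
    (h6 : (-x6) + x11 + (-x14) = 0)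
    (h7 : (-x7) + (-x10) + x12 = 0)
    (h8 : (-x8) + (-x11) + x13 = 0)
    (h9 : (-x9) + (-x12) + x14 = 0)
    (b0 : |x0| ≤ 3) (b1 : |x1| ≤ 3) (b2 : |x2| ≤ 3) (b3 : |x3| ≤ 3) (b4 : |x4| ≤ 3) (b5 : |x5| ≤ 3) (b6 : |x6| ≤ 3) (b7 : |x7| ≤ 3) (b8 : |x8| ≤ 3) (b9 : |x9| ≤ 3) (b10 : |x10| ≤ 3) (b11 : |x11| ≤ 3) (b12 : |x12| ≤ 3) (b13 : |x13| ≤ 3) (b14 : |x14| ≤ 3) :
    x0 = 0 ∨ x1 = 0 ∨ x2 = 0 ∨ x3 = 0 ∨ x4 = 0 ∨ x5 = 0 ∨ x6 = 0 ∨ x7 = 0 ∨ x8 = 0 ∨ x9 = 0 ∨ x10 = 0 ∨ x11 = 0 ∨ x12 = 0 ∨ x13 = 0 ∨ x14 = 0 := by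
  have key : ∀ x2 x7 x8 x11 x12 x14 : ZMod 4, x2 ≠ 0 → x7 ≠ 0 → x8 ≠ 0 → x11 ≠ 0 → x12 ≠ 0 → x14 ≠ 0 →
    0 + x2 + x7 + x11 - x14 ≠ 0 →
    0 + x2 - x8 + x12 - x14 ≠ 0 →
    0 - x7 - x8 - x11 + x12 ≠ 0 →
    0 + x2 + x7 ≠ 0 →
    0 + x11 - x14 ≠ 0 →
    0 + x2 - x8 ≠ 0 →
    0 - x12 + x14 ≠ 0 →
    0 - x7 + x12 ≠ 0 →
    0 + x8 + x11 ≠ 0 → False := by decide +kernel
  have nz : ∀ x : ℤ, |x| ≤ 3 → x ≠ 0 → (x : ZMod 4) ≠ 0 := by
    intro x hb hx h
    have h4 := (ZMod.intCast_zmod_eq_zero_iff_dvd x 4).1 h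
    rw [abs_le] at hb
    obtain ⟨y, rfl⟩ := h4
    push_cast at hb
    omega
  by_contra hcon
  push Not at hcon
  obtain ⟨c0, c1, c2, c3, c4, c5, c6, c7, c8, c9, c10, c11, c12, c13, c14⟩ := hcon
  have z0 := nz x0 b0 c0
  have z1 := nz x1 b1 c1
  have z2 := nz x2 b2 c2
  have z3 := nz x3 b3 c3
  have z4 := nz x4 b4 c4
  have z5 := nz x5 b5 c5
  have z6 := nz x6 b6 c6
  have z7 := nz x7 b7 c7
  have z8 := nz x8 b8 c8
  have z9 := nz x9 b9 c9
  have z10 := nz x10 b10 c10
  have z11 := nz x11 b11 c11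
  have z12 := nz x12 b12 c12
  have z13 := nz x13 b13 c13
  have z14 := nz x14 b14 c14
  have t0 : x0 = 0 + x2 + x7 + x11 - x14 := by linear_combination (-1) * h1 + (-1) * h2 + (-1) * h6
  have t4 : x4 = 0 + x2 - x8 + x12 - x14 := by linear_combination (1) * h3 + (1) * h4 + (1) * h9
  have t5 : x5 = 0 - x7 - x8 - x11 + x12 := by linear_combination (-1) * h5 + (-1) * h7 + (-1) * h8
  have t1 : x1 = 0 + x2 + x7 := by linear_combination (-1) * h2
  have t6 : x6 = 0 + x11 - x14 := by linear_combination (-1) * h6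
  have t3 : x3 = 0 + x2 - x8 := by linear_combination (1) * h3
  have t9 : x9 = 0 - x12 + x14 := by linear_combination (-1) * h9
  have t10 : x10 = 0 - x7 + x12 := by linear_combination (-1) * h7
  have t13 : x13 = 0 + x8 + x11 := by linear_combination (1) * h8
  rw [t0] at z0
  push_cast at z0
  rw [t4] at z4
  push_cast at z4
  rw [t5] at z5
  push_cast at z5
  rw [t1] at z1
  push_cast at z1
  rw [t6] at z6
  push_cast at z6
  rw [t3] at z3
  push_cast at z3
  rw [t9] at z9
  push_cast at z9
  rw [t10] at z10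
  push_cast at z10
  rw [t13] at z13
  push_cast at z13
  exact key _ _ _ _ _ _ z2 z7 z8 z11 z12 z14 (by simpa using z0) (by simpa using z4) (by simpa using z5) (by simpa using z1) (by simpa using z6) (by simpa using z3) (by simpa using z9) (by simpa using z10) (by simpa using z13)

/-! ### Pieces that contract to the Petersen graph -/

/-- the other half of the edge of a half-edge of the Petersen graph -/
def pinvT : List ℕ := [3, 12, 15, 0, 6, 18, 4, 9, 21, 7, 13, 24, 1, 10, 27, 2, 22, 25, 5, 26, 28, 8, 16, 29, 11, 17, 19, 14, 20, 23]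

def pinv (x : Fin 10 × Fin 3) : Fin 10 × Fin 3 :=
  let m := pinvT.getD (3 * x.1.val + x.2.val) 0
  (Fin.ofNat 10 (m / 3), Fin.ofNat 3 m)

theorem piece {V : Type} [Fintype V] [DecidableEq V] (G : CubicGraph V) (π : V → Fin 10)
    (j : Fin 10 × Fin 3 → V × Fin 3)
    (a1 : ∀ d, π d.1 ≠ π (G.inv d).1 → ∃ i : Fin 3, j (π d.1, i) = d)
    (a2 : ∀ q i, π (j (q, i)).1 = q ∧ π (G.inv (j (q, i))).1 ≠ q)
    (a3 : ∀ q, j (q, 0) ≠ j (q, 1) ∧ j (q, 0) ≠ j (q, 2) ∧ j (q, 1) ≠ j (q, 2))
    (b : ∀ x, G.inv (j x) = j (pinv x)) {φ : V × Fin 3 → ℤ} (hφ : G.FourFlow φ) :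
    ∃ x, φ (j x) = 0 := by
  obtain ⟨h1, hb, h2⟩ := hφ
  have vert : ∀ q, φ (j (q, 0)) + φ (j (q, 1)) + φ (j (q, 2)) = 0 := by
    intro q
    have hc := cut_sum G h1 h2 (univ.filter fun v => π v = q)
    have e : (univ.filter fun d : V × Fin 3 => d.1 ∈ (univ.filter fun v => π v = q) ∧
        (G.inv d).1 ∉ (univ.filter fun v => π v = q)) = {j (q, 0), j (q, 1), j (q, 2)} := by
      ext d
      simp only [mem_filter, mem_univ, true_and, mem_insert, mem_singleton]
      constructor
      · rintro ⟨hd1, hd2⟩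
        obtain ⟨i, hi⟩ := a1 d (by rw [hd1]; exact fun h => hd2 h.symm)
        rw [hd1] at hi
        fin_cases i
        · exact Or.inl hi.symm
        · exact Or.inr (Or.inl hi.symm)
        · exact Or.inr (Or.inr hi.symm)
      · rintro (rfl | rfl | rfl)
        · exact a2 q 0
        · exact a2 q 1
        · exact a2 q 2
    rw [e, Finset.sum_insert, Finset.sum_insert, Finset.sum_singleton] at hc
    · linarith
    · simp only [mem_singleton]; exact (a3 q).2.2
    · simp only [mem_insert, mem_singleton, not_or]; exact ⟨(a3 q).1, (a3 q).2.1⟩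
  have anti : ∀ x, φ (j (pinv x)) = - φ (j x) := by
    intro x; rw [← b, h1]
  have e0 : φ (j (1, 0)) = - φ (j (0, 0)) := by
    have := anti (0, 0)
    rwa [show pinv (0, 0) = (1, 0) by decide] at this
  have e1 : φ (j (2, 0)) = - φ (j (1, 1)) := by
    have := anti (1, 1)
    rwa [show pinv (1, 1) = (2, 0) by decide] at this
  have e2 : φ (j (3, 0)) = - φ (j (2, 1)) := by
    have := anti (2, 1)
    rwa [show pinv (2, 1) = (3, 0) by decide] at this
  have e3 : φ (j (4, 1)) = - φ (j (3, 1)) := by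
    have := anti (3, 1)
    rwa [show pinv (3, 1) = (4, 1) by decide] at this
  have e4 : φ (j (0, 1)) = - φ (j (4, 0)) := by
    have := anti (4, 0)
    rwa [show pinv (4, 0) = (0, 1) by decide] at this
  have e5 : φ (j (5, 0)) = - φ (j (0, 2)) := by
    have := anti (0, 2)
    rwa [show pinv (0, 2) = (5, 0) by decide] at this
  have e6 : φ (j (6, 0)) = - φ (j (1, 2)) := by
    have := anti (1, 2)
    rwa [show pinv (1, 2) = (6, 0) by decide] at this
  have e7 : φ (j (7, 0)) = - φ (j (2, 2)) := by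
    have := anti (2, 2)
    rwa [show pinv (2, 2) = (7, 0) by decide] at this
  have e8 : φ (j (8, 0)) = - φ (j (3, 2)) := by
    have := anti (3, 2)
    rwa [show pinv (3, 2) = (8, 0) by decide] at this
  have e9 : φ (j (9, 0)) = - φ (j (4, 2)) := by
    have := anti (4, 2)
    rwa [show pinv (4, 2) = (9, 0) by decide] at this
  have e10 : φ (j (7, 1)) = - φ (j (5, 1)) := by
    have := anti (5, 1)
    rwa [show pinv (5, 1) = (7, 1) by decide] at this
  have e11 : φ (j (8, 2)) = - φ (j (6, 1)) := by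
    have := anti (6, 1)
    rwa [show pinv (6, 1) = (8, 2) by decide] at this
  have e12 : φ (j (9, 2)) = - φ (j (7, 2)) := by
    have := anti (7, 2)
    rwa [show pinv (7, 2) = (9, 2) by decide] at this
  have e13 : φ (j (5, 2)) = - φ (j (8, 1)) := by
    have := anti (8, 1)
    rwa [show pinv (8, 1) = (5, 2) by decide] at this
  have e14 : φ (j (6, 2)) = - φ (j (9, 1)) := by
    have := anti (9, 1)
    rwa [show pinv (9, 1) = (6, 2) by decide] at this
  have v0 := vert 0
  have v1 := vert 1
  have v2 := vert 2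
  have v3 := vert 3
  have v4 := vert 4
  have v5 := vert 5
  have v6 := vert 6
  have v7 := vert 7
  have v8 := vert 8
  have v9 := vert 9
  have fin := petersen (φ (j (0, 0))) (φ (j (1, 1))) (φ (j (2, 1))) (φ (j (3, 1))) (φ (j (4, 0))) (φ (j (0, 2))) (φ (j (1, 2))) (φ (j (2, 2))) (φ (j (3, 2))) (φ (j (4, 2))) (φ (j (5, 1))) (φ (j (6, 1))) (φ (j (7, 2))) (φ (j (8, 1))) (φ (j (9, 1)))
    (by linarith [v0, e4])
    (by linarith [v1, e0])
    (by linarith [v2, e1])
    (by linarith [v3, e2])
    (by linarith [v4, e3])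
    (by linarith [v5, e5, e13])
    (by linarith [v6, e6, e14])
    (by linarith [v7, e7, e10])
    (by linarith [v8, e8, e11])
    (by linarith [v9, e9, e12])
    (hb _) (hb _) (hb _) (hb _) (hb _) (hb _) (hb _) (hb _) (hb _) (hb _) (hb _) (hb _) (hb _) (hb _) (hb _)
  rcases fin with h | h | h | h | h | h | h | h | h | h | h | h | h | h | h
  all_goals exact ⟨_, h⟩


/-! ### The block that is inserted at a vertex -/

/-- the partner of a half-edge of the block -/
inductive Tgt
  | int (d : Fin 12 × Fin 3)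
  | left (k : Fin 3)
  | right (k : Fin 3)
  deriving DecidableEq

def dec12 (m : ℕ) : Fin 12 × Fin 3 := (Fin.ofNat 12 (m / 3), Fin.ofNat 3 m)

def tabT : List ℕ := [36, 9, 12, 37, 10, 18, 38, 11, 21, 1, 4, 7, 2, 39, 24, 40, 19, 30, 5, 16, 33, 8, 28, 31, 14, 32, 34, 41, 22, 35, 17, 23, 25, 20, 26, 29]

/-- the block: partners of its half-edges -/
def tab (d : Fin 12 × Fin 3) : Tgt :=
  let m := tabT.getD (3 * d.1.val + d.2.val) 0
  if m < 36 then .int (dec12 m) else if m < 39 then .left (Fin.ofNat 3 (m - 36))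
  else .right (Fin.ofNat 3 (m - 39))

def lp (k : Fin 3) : Fin 12 × Fin 3 := dec12 (([0, 3, 6] : List ℕ).getD k.val 0)
def rp (k : Fin 3) : Fin 12 × Fin 3 := dec12 (([13, 15, 27] : List ℕ).getD k.val 0)

theorem tab_int : ∀ d d', tab d = .int d' → tab d' = .int d ∧ d' ≠ d := by decide +kernel
theorem tab_left : ∀ d k, tab d = .left k → lp k = d := by decide +kernel
theorem tab_right : ∀ d k, tab d = .right k → rp k = d := by decide +kernel
theorem tab_lp : ∀ k, tab (lp k) = .left k := by decide +kernel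
theorem tab_rp : ∀ k, tab (rp k) = .right k := by decide +kernel

section
variable {V : Type} [Fintype V] [DecidableEq V] (G : CubicGraph V) (v : V)

/-- the partner map after the insertion of the block between `v` and its neighbours -/
def extInv : (V ⊕ Fin 12) × Fin 3 → (V ⊕ Fin 12) × Fin 3
  | (Sum.inl w, i) =>
      if w = v then (Sum.inr (rp i).1, (rp i).2)
      else if (G.inv (w, i)).1 = v then
        (Sum.inr (lp (G.inv (w, i)).2).1, (lp (G.inv (w, i)).2).2)
      else (Sum.inl (G.inv (w, i)).1, (G.inv (w, i)).2)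
  | (Sum.inr a, i) => match tab (a, i) with
      | .int d => (Sum.inr d.1, d.2)
      | .left k => (Sum.inl (G.inv (v, k)).1, (G.inv (v, k)).2)
      | .right k => (Sum.inl v, k)

variable (hv : ∀ i, (G.inv (v, i)).1 ≠ v)

theorem extInv_v (i : Fin 3) : extInv G v (Sum.inl v, i) = (Sum.inr (rp i).1, (rp i).2) := by
  simp [extInv]

theorem extInv_near {w : V} {i k : Fin 3} (hw : w ≠ v) (h : G.inv (w, i) = (v, k)) :
    extInv G v (Sum.inl w, i) = (Sum.inr (lp k).1, (lp k).2) := by
  simp [extInv, hw, h]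

theorem extInv_far {w : V} {i : Fin 3} (hw : w ≠ v) (h : (G.inv (w, i)).1 ≠ v) :
    extInv G v (Sum.inl w, i) = (Sum.inl (G.inv (w, i)).1, (G.inv (w, i)).2) := by
  simp [extInv, hw, h]

theorem extInv_int {d d' : Fin 12 × Fin 3} (h : tab d = .int d') :
    extInv G v (Sum.inr d.1, d.2) = (Sum.inr d'.1, d'.2) := by
  simp [extInv, h]

theorem extInv_left {d : Fin 12 × Fin 3} {k : Fin 3} (h : tab d = .left k) :
    extInv G v (Sum.inr d.1, d.2) = (Sum.inl (G.inv (v, k)).1, (G.inv (v, k)).2) := by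
  simp [extInv, h]

theorem extInv_right {d : Fin 12 × Fin 3} {k : Fin 3} (h : tab d = .right k) :
    extInv G v (Sum.inr d.1, d.2) = (Sum.inl v, k) := by
  simp [extInv, h]

include hv in
theorem extInv_inv (d : (V ⊕ Fin 12) × Fin 3) : extInv G v (extInv G v d) = d := by
  obtain ⟨a | a, i⟩ := d
  · by_cases ha : a = v
    · subst ha
      rw [extInv_v, extInv_right G a (tab_rp i)]
    · by_cases hn : (G.inv (a, i)).1 = v
      · have hk : G.inv (a, i) = (v, (G.inv (a, i)).2) := by
          rw [← hn]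
        rw [extInv_near G v ha hk, extInv_left G v (tab_lp _), ← hk, G.inv_inv]
      · rw [extInv_far G v ha hn, extInv_far G v hn]
        · rw [Prod.mk.eta, G.inv_inv]
        · rw [Prod.mk.eta, G.inv_inv]; exact ha
  · have e : ((Sum.inr a : V ⊕ Fin 12), i) = (Sum.inr (a, i).1, (a, i).2) := rfl
    rw [e]
    match h : tab (a, i) with
    | .int d' =>
      rw [extInv_int G v h, extInv_int G v (tab_int _ _ h).1]
    | .left k =>
      rw [extInv_left G v h, extInv_near G v (k := k) (hv k) (by rw [Prod.mk.eta, G.inv_inv]),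
        tab_left _ _ h]
    | .right k =>
      rw [extInv_right G v h, extInv_v, tab_right _ _ h]

theorem extInv_ne (d : (V ⊕ Fin 12) × Fin 3) : extInv G v d ≠ d := by
  obtain ⟨a | a, i⟩ := d
  · by_cases ha : a = v
    · subst ha
      rw [extInv_v]; intro h; exact absurd (congrArg Prod.fst h) (by simp)
    · by_cases hn : (G.inv (a, i)).1 = v
      · have hk : G.inv (a, i) = (v, (G.inv (a, i)).2) := by
          rw [← hn]
        rw [extInv_near G v ha hk]; intro h; exact absurd (congrArg Prod.fst h) (by simp)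
      · rw [extInv_far G v ha hn]
        intro h
        apply G.inv_ne (a, i)
        rw [Prod.mk.injEq] at h
        exact Prod.ext (Sum.inl_injective h.1) h.2
  · have e : ((Sum.inr a : V ⊕ Fin 12), i) = (Sum.inr (a, i).1, (a, i).2) := rfl
    rw [e]
    match h : tab (a, i) with
    | .int d' =>
      rw [extInv_int G v h]
      intro h'
      rw [Prod.mk.injEq] at h'
      exact (tab_int _ _ h).2 (Prod.ext (Sum.inr_injective h'.1) h'.2)
    | .left k =>
      rw [extInv_left G v h]; intro h; exact absurd (congrArg Prod.fst h) (by simp)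
    | .right k =>
      rw [extInv_right G v h]; intro h; exact absurd (congrArg Prod.fst h) (by simp)

/-- the graph with the block inserted -/
def ext : CubicGraph (V ⊕ Fin 12) where
  inv := extInv G v
  inv_inv := extInv_inv G v hv
  inv_ne := extInv_ne G v

/-- glue a function on the half-edges of `G` (with new values `p` at `v`) and a function on the
half-edges of the block -/
def glue {α : Type} (f : V × Fin 3 → α) (p : Fin 3 → α) (g : Fin 12 × Fin 3 → α) :
    (V ⊕ Fin 12) × Fin 3 → α
  | (Sum.inl w, i) => if w = v then p i else f (w, i)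
  | (Sum.inr a, i) => g (a, i)

include hv in
theorem glue_rel {α : Type} (σ : α → α) (hσ : ∀ x, σ (σ x) = x) {f : V × Fin 3 → α}
    {p q : Fin 3 → α} {g : Fin 12 × Fin 3 → α} (hf : ∀ d, f (G.inv d) = σ (f d))
    (hp : ∀ i, f (v, i) = p i) (hg : ∀ d d', tab d = .int d' → g d' = σ (g d))
    (hl : ∀ k, g (lp k) = p k) (hr : ∀ k, g (rp k) = σ (q k)) (d : (V ⊕ Fin 12) × Fin 3) :
    glue v f q g (extInv G v d) = σ (glue v f q g d) := by
  obtain ⟨a | a, i⟩ := d
  · by_cases ha : a = v
    · subst ha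
      rw [extInv_v]; simp [glue, hr]
    · by_cases hn : (G.inv (a, i)).1 = v
      · have hk : G.inv (a, i) = (v, (G.inv (a, i)).2) := by
          rw [← hn]
        rw [extInv_near G v ha hk]
        simp only [glue, ha, if_false, Prod.mk.eta, hl]
        rw [← hf, hk, hp]
      · rw [extInv_far G v ha hn]
        simp only [glue, ha, if_false, hn, Prod.mk.eta, hf]
  · have e : ((Sum.inr a : V ⊕ Fin 12), i) = (Sum.inr (a, i).1, (a, i).2) := rfl
    rw [e]
    match h : tab (a, i) with
    | .int d' =>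
      rw [extInv_int G v h]; simp only [glue, Prod.mk.eta]; exact hg _ _ h
    | .left k =>
      rw [extInv_left G v h]
      simp only [glue, Prod.mk.eta, hv k, if_false]
      rw [← tab_left _ _ h, hl, ← hp, hf]
    | .right k =>
      rw [extInv_right G v h]
      simp only [glue, if_true]
      rw [← tab_right _ _ h, hr, hσ]

theorem card_split (P : (V ⊕ Fin 12) × Fin 3 → Prop) [DecidablePred P] :
    #{d | P d} = #{d : V × Fin 3 | P (Sum.inl d.1, d.2)}
      + #{d : Fin 12 × Fin 3 | P (Sum.inr d.1, d.2)} := by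
  simp only [Finset.card_filter, Fintype.sum_prod_type, Fintype.sum_sum_type]

def bpi (a : Fin 12) : Fin 10 := Fin.ofNat 10 (([0, 0, 0, 0, 1, 3, 4, 5, 6, 7, 8, 9] : List ℕ).getD a.val 0)
def bj (x : Fin 10 × Fin 3) : (Fin 12 × Fin 3) ⊕ Fin 3 :=
  let m := ([2, 5, 8, 12, 13, 14, 36, 37, 38, 15, 16, 17, 18, 19, 20, 21, 22, 23, 24, 25, 26, 27, 28, 29, 30, 31, 32, 33, 34, 35] : List ℕ).getD (3 * x.1.val + x.2.val) 0
  if m < 36 then .inl (dec12 m) else .inr (Fin.ofNat 3 (m - 36))

def piE : V ⊕ Fin 12 → Fin 10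
  | Sum.inl w => if w = v then 2 else 0
  | Sum.inr a => bpi a

def jv : (Fin 12 × Fin 3) ⊕ Fin 3 → (V ⊕ Fin 12) × Fin 3
  | Sum.inl d => (Sum.inr d.1, d.2)
  | Sum.inr k => (Sum.inl v, k)

theorem jv_inj : Function.Injective (jv v) := by
  rintro (x | x) (y | y) h
  · simp only [jv, Prod.mk.injEq, Sum.inr.injEq] at h
    rw [Prod.ext h.1 h.2]
  · simp [jv] at h
  · simp [jv] at h
  · simp only [jv, Prod.mk.injEq, true_and] at h
    rw [h]

theorem B1 : ∀ x d, bj x = .inl d → bpi d.1 = x.1 ∧ (∀ d', tab d = .int d' → bpi d'.1 ≠ x.1) ∧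
    (∀ k, tab d ≠ .left k) ∧ (∀ k, tab d = .right k → x.1 ≠ 2) := by decide +kernel
theorem B2 : ∀ x k, bj x = .inr k → x.1 = 2 ∧ bpi (rp k).1 ≠ 2 := by decide +kernel
theorem B3 : ∀ x d, bj x = .inl d → (∀ d', tab d = .int d' → bj (pinv x) = .inl d') ∧
    (∀ k, tab d = .right k → bj (pinv x) = .inr k) := by decide +kernel
theorem B3' : ∀ x k, bj x = .inr k → bj (pinv x) = .inl (rp k) := by decide +kernel
theorem B4 : ∀ q, bj (q, 0) ≠ bj (q, 1) ∧ bj (q, 0) ≠ bj (q, 2) ∧ bj (q, 1) ≠ bj (q, 2) := by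
  decide +kernel
theorem B5 : ∀ d d', tab d = .int d' → bpi d.1 ≠ bpi d'.1 → ∃ k, bj (bpi d.1, k) = .inl d := by
  decide +kernel
theorem B6 : ∀ d k, tab d = .left k → bpi d.1 = 0 := by decide +kernel
theorem B7 : ∀ d k, tab d = .right k → ∃ k', bj (bpi d.1, k') = .inl d := by decide +kernel
theorem B8 : ∀ k, bpi (lp k).1 = 0 := by decide +kernel
theorem B9 : ∀ k, bj (2, k) = .inr k := by decide +kernel
/-- the half-edges of the block in the Petersen piece -/
theorem B10 : ∀ x k, bj x ≠ .inl (lp k) := by decide +kernel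

include hv in
theorem zero_piece {φ : (V ⊕ Fin 12) × Fin 3 → ℤ} (hφ : (ext G v hv).FourFlow φ) :
    ∃ x, φ (jv v (bj x)) = 0 := by
  apply piece (ext G v hv) (piE v) (fun x => jv v (bj x)) _ _ _ _ hφ
  · rintro ⟨a | a, i⟩ h
    · by_cases ha : a = v
      · subst ha
        refine ⟨i, ?_⟩
        simp only [piE, if_true]
        rw [B9]; rfl
      · exfalso
        apply h
        change piE v (Sum.inl a) = piE v (extInv G v (Sum.inl a, i)).1
        by_cases hn : (G.inv (a, i)).1 = v
        · have hk : G.inv (a, i) = (v, (G.inv (a, i)).2) := by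
            rw [← hn]
          rw [extInv_near G v ha hk]
          simp only [piE, ha, if_false]
          exact (B8 _).symm
        · rw [extInv_far G v ha hn]
          simp only [piE, ha, hn, if_false]
    · have e : ((Sum.inr a : V ⊕ Fin 12), i) = (Sum.inr (a, i).1, (a, i).2) := rfl
      change piE v (Sum.inr a) ≠ piE v (extInv G v (Sum.inr a, i)).1 at h
      rw [e] at h ⊢
      match ht : tab (a, i) with
      | .int d' =>
        rw [extInv_int G v ht] at h
        obtain ⟨k, hk⟩ := B5 _ _ ht h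
        exact ⟨k, by change jv v (bj (bpi a, k)) = _; rw [hk]; rfl⟩
      | .left k =>
        exfalso
        rw [extInv_left G v ht] at h
        apply h
        simp only [piE, hv k, if_false]
        exact B6 _ _ ht
      | .right k =>
        obtain ⟨k', hk⟩ := B7 _ _ ht
        exact ⟨k', by change jv v (bj (bpi a, k')) = _; rw [hk]; rfl⟩
  · intro q i
    match hb : bj (q, i) with
    | .inl d =>
      obtain ⟨b1, b2, b3, b4⟩ := B1 _ _ hb
      refine ⟨b1, ?_⟩
      change piE v (extInv G v (Sum.inr d.1, d.2)).1 ≠ q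
      match ht : tab d with
      | .int d' => rw [extInv_int G v ht]; exact b2 _ ht
      | .left k => exact absurd ht (b3 k)
      | .right k =>
        rw [extInv_right G v ht]
        simp only [piE, if_true]
        exact (b4 _ ht).symm
    | .inr k =>
      obtain ⟨b1, b2⟩ := B2 _ _ hb
      simp only at b1
      subst b1
      refine ⟨by simp [jv, piE], ?_⟩
      change piE v (extInv G v (Sum.inl v, k)).1 ≠ 2
      rw [extInv_v]
      exact b2
  · intro q
    obtain ⟨h1, h2, h3⟩ := B4 q
    exact ⟨fun h => h1 (jv_inj v h), fun h => h2 (jv_inj v h), fun h => h3 (jv_inj v h)⟩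
  · intro x
    change extInv G v (jv v (bj x)) = jv v (bj (pinv x))
    match hb : bj x with
    | .inl d =>
      obtain ⟨b1, b2⟩ := B3 _ _ hb
      change extInv G v (Sum.inr d.1, d.2) = _
      match ht : tab d with
      | .int d' => rw [extInv_int G v ht, b1 _ ht]; rfl
      | .left k => exact absurd ht ((B1 _ _ hb).2.2.1 k)
      | .right k => rw [extInv_right G v ht, b2 _ ht]; rfl
    | .inr k =>
      rw [B3' _ _ hb]
      change extInv G v (Sum.inl v, k) = _
      rw [extInv_v]; rfl

include hv in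
theorem left_sum {φ : (V ⊕ Fin 12) × Fin 3 → ℤ} (hφ : (ext G v hv).FourFlow φ) :
    φ (Sum.inr (lp 0).1, (lp 0).2) + φ (Sum.inr (lp 1).1, (lp 1).2)
      + φ (Sum.inr (lp 2).1, (lp 2).2) = 0 := by
  have hc := cut_sum (ext G v hv) hφ.1 hφ.2.2
    (univ.filter fun x : V ⊕ Fin 12 => ∀ w, x = Sum.inl w → w = v)
  have e : (univ.filter fun d : (V ⊕ Fin 12) × Fin 3 =>
      d.1 ∈ (univ.filter fun x : V ⊕ Fin 12 => ∀ w, x = Sum.inl w → w = v) ∧
        ((ext G v hv).inv d).1 ∉ (univ.filter fun x : V ⊕ Fin 12 => ∀ w, x = Sum.inl w → w = v))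
      = {(Sum.inr (lp 0).1, (lp 0).2), (Sum.inr (lp 1).1, (lp 1).2),
        (Sum.inr (lp 2).1, (lp 2).2)} := by
    ext d
    simp only [mem_filter, mem_univ, true_and, mem_insert, mem_singleton]
    constructor
    · rintro ⟨h1, h2⟩
      obtain ⟨a | a, i⟩ := d
      · have ha : a = v := h1 a rfl
        subst ha
        exfalso; apply h2
        change ∀ w, (extInv G a (Sum.inl a, i)).1 = Sum.inl w → w = a
        rw [extInv_v]; intro w hw; simp at hw
      · have e' : ((Sum.inr a : V ⊕ Fin 12), i) = (Sum.inr (a, i).1, (a, i).2) := rfl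
        change ¬ ∀ w, (extInv G v (Sum.inr a, i)).1 = Sum.inl w → w = v at h2
        rw [e'] at h2 ⊢
        match ht : tab (a, i) with
        | .int d' => exfalso; apply h2; rw [extInv_int G v ht]; intro w hw; simp at hw
        | .left k =>
          rw [← tab_left _ _ ht]
          fin_cases k
          · exact Or.inl rfl
          · exact Or.inr (Or.inl rfl)
          · exact Or.inr (Or.inr rfl)
        | .right k =>
          exfalso; apply h2; rw [extInv_right G v ht]; intro w hw
          exact (Sum.inl_injective hw).symm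
    · have key : ∀ k, (∀ w, (Sum.inr (lp k).1 : V ⊕ Fin 12) = Sum.inl w → w = v) ∧
          ¬ ∀ w, (extInv G v (Sum.inr (lp k).1, (lp k).2)).1 = Sum.inl w → w = v := by
        intro k
        refine ⟨fun w hw => by simp at hw, ?_⟩
        rw [extInv_left G v (tab_lp k)]
        intro h
        exact hv k (h _ rfl)
      rintro (rfl | rfl | rfl)
      · exact key 0
      · exact key 1
      · exact key 2
  have n01 : lp 0 ≠ lp 1 := by decide +kernel
  have n02 : lp 0 ≠ lp 2 := by decide +kernel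
  have n12 : lp 1 ≠ lp 2 := by decide +kernel
  have inj : ∀ x y : Fin 12 × Fin 3, ((Sum.inr x.1 : V ⊕ Fin 12), x.2) = (Sum.inr y.1, y.2) →
      x = y := by
    intro x y h
    rw [Prod.mk.injEq] at h
    exact Prod.ext (Sum.inr_injective h.1) h.2
  rw [e, Finset.sum_insert, Finset.sum_insert, Finset.sum_singleton] at hc
  · linarith
  · simp only [mem_singleton]; exact fun h => n12 (inj _ _ h)
  · simp only [mem_insert, mem_singleton, not_or]
    exact ⟨fun h => n01 (inj _ _ h), fun h => n02 (inj _ _ h)⟩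

/-- the restriction of a flow -/
def restr (φ : (V ⊕ Fin 12) × Fin 3 → ℤ) (d : V × Fin 3) : ℤ :=
  if d.1 = v then - φ (Sum.inl (G.inv d).1, (G.inv d).2) else φ (Sum.inl d.1, d.2)

include hv in
theorem restr_v {φ : (V ⊕ Fin 12) × Fin 3 → ℤ} (hφ : (ext G v hv).FourFlow φ) (k : Fin 3) :
    restr G v φ (v, k) = φ (Sum.inr (lp k).1, (lp k).2) := by
  have := hφ.1 (Sum.inr (lp k).1, (lp k).2)
  change φ (extInv G v (Sum.inr (lp k).1, (lp k).2)) = _ at this
  rw [extInv_left G v (tab_lp k)] at this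
  simp only [restr, if_true]
  rw [this, neg_neg]

include hv in
theorem restr_flow {φ : (V ⊕ Fin 12) × Fin 3 → ℤ} (hφ : (ext G v hv).FourFlow φ) :
    G.FourFlow (restr G v φ) := by
  refine ⟨?_, ?_, ?_⟩
  · rintro ⟨w, i⟩
    by_cases hw : w = v
    · subst hw
      simp only [restr, hv i, if_false, if_true, neg_neg]
    · by_cases hn : (G.inv (w, i)).1 = v
      · simp only [restr, hn, hw, if_true, if_false, G.inv_inv]
      · simp only [restr, hn, hw, if_false]
        rw [← hφ.1]
        change _ = φ (extInv G v (Sum.inl w, i))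
        rw [extInv_far G v hw hn]
  · intro d
    simp only [restr]
    split_ifs
    · rw [abs_neg]; exact hφ.2.1 _
    · exact hφ.2.1 _
  · intro w
    by_cases hw : w = v
    · subst hw
      rw [Fin.sum_univ_three, restr_v G w hv hφ, restr_v G w hv hφ, restr_v G w hv hφ]
      exact left_sum G w hv hφ
    · have := hφ.2.2 (Sum.inl w)
      simpa only [restr, hw, if_false] using this

include hv in
theorem zeros_ext {n : ℕ} (h : ∀ φ, G.FourFlow φ → 2 * n ≤ #{d : V × Fin 3 | φ d = 0})
    {φ : (V ⊕ Fin 12) × Fin 3 → ℤ} (hφ : (ext G v hv).FourFlow φ) :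
    2 * (n + 1) ≤ #{d : (V ⊕ Fin 12) × Fin 3 | φ d = 0} := by
  have h0 := h _ (restr_flow G v hv hφ)
  obtain ⟨x, hx⟩ := zero_piece G v hv hφ
  let g : V × Fin 3 → (V ⊕ Fin 12) × Fin 3 := fun d =>
    if d.1 = v then (Sum.inr (lp d.2).1, (lp d.2).2) else (Sum.inl d.1, d.2)
  have lpinj : ∀ k k', lp k = lp k' → k = k' := by decide +kernel
  have hg : Function.Injective g := by
    rintro ⟨a, i⟩ ⟨b, k⟩ hab
    simp only [g] at hab
    split_ifs at hab with h1 h2 h2
    · rw [Prod.mk.injEq] at hab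
      have := lpinj i k (Prod.ext (Sum.inr_injective hab.1) hab.2)
      rw [h1, h2, this]
    · simp at hab
    · simp at hab
    · rw [Prod.mk.injEq] at hab
      rw [Sum.inl_injective hab.1, hab.2]
  have hgz : ∀ d, restr G v φ d = 0 → φ (g d) = 0 := by
    rintro ⟨a, i⟩ hd
    by_cases ha : a = v
    · subst ha
      rw [restr_v G a hv hφ] at hd
      simpa only [g, if_true] using hd
    · simpa only [g, restr, ha, if_false] using hd
  have hgj : ∀ d y, g d ≠ jv v (bj y) := by
    rintro ⟨a, i⟩ y hd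
    simp only [g] at hd
    split_ifs at hd with h1
    · match hb : bj y with
      | .inl d' =>
        rw [hb] at hd
        simp only [jv, Prod.mk.injEq] at hd
        exact B10 y i (by rw [hb, Prod.ext (Sum.inr_injective hd.1) hd.2])
      | .inr k => rw [hb] at hd; simp [jv] at hd
    · match hb : bj y with
      | .inl d' => rw [hb] at hd; simp [jv] at hd
      | .inr k =>
        rw [hb] at hd
        simp only [jv, Prod.mk.injEq] at hd
        exact h1 (Sum.inl_injective hd.1)
  have hinv : (ext G v hv).inv (jv v (bj x)) = jv v (bj (pinv x)) := by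
    change extInv G v (jv v (bj x)) = jv v (bj (pinv x))
    match hb : bj x with
    | .inl d =>
      obtain ⟨b1, b2⟩ := B3 _ _ hb
      change extInv G v (Sum.inr d.1, d.2) = _
      match ht : tab d with
      | .int d' => rw [extInv_int G v ht, b1 _ ht]; rfl
      | .left k => exact absurd ht ((B1 _ _ hb).2.2.1 k)
      | .right k => rw [extInv_right G v ht, b2 _ ht]; rfl
    | .inr k =>
      rw [B3' _ _ hb]
      change extInv G v (Sum.inl v, k) = _
      rw [extInv_v]; rfl
  let A1 : Finset ((V ⊕ Fin 12) × Fin 3) := (univ.filter fun d => restr G v φ d = 0).image g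
  let A2 : Finset ((V ⊕ Fin 12) × Fin 3) := {jv v (bj x), (ext G v hv).inv (jv v (bj x))}
  have c1 : A1.card = #{d : V × Fin 3 | restr G v φ d = 0} := Finset.card_image_of_injective _ hg
  have c2 : A2.card = 2 := Finset.card_pair ((ext G v hv).inv_ne _).symm
  have hd : Disjoint A1 A2 := by
    rw [Finset.disjoint_left]
    intro d h1 h2
    simp only [A1, mem_image] at h1
    obtain ⟨d', -, rfl⟩ := h1
    simp only [A2, mem_insert, mem_singleton] at h2
    rcases h2 with h2 | h2
    · exact hgj _ _ h2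
    · rw [hinv] at h2; exact hgj _ _ h2
  have hsub : A1 ∪ A2 ⊆ (univ.filter fun d : (V ⊕ Fin 12) × Fin 3 => φ d = 0) := by
    intro d hd
    simp only [mem_filter, mem_univ, true_and]
    rcases Finset.mem_union.1 hd with h1 | h1
    · simp only [A1, mem_image, mem_filter, mem_univ, true_and] at h1
      obtain ⟨d', h2, rfl⟩ := h1
      exact hgz _ h2
    · simp only [A2, mem_insert, mem_singleton] at h1
      rcases h1 with rfl | rfl
      · exact hx
      · rw [hφ.1, hx, neg_zero]
  have := Finset.card_le_card hsub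
  rw [Finset.card_union_of_disjoint hd, c1, c2] at this
  omega

end


/-! ### The family -/

def fn4 (l : List ℕ) (m : ℕ) : Fin 4 := Fin.ofNat 4 (l.getD m 0)
def cpat (k : Fin 3) : Fin 4 := fn4 [2, 1, 1] k.val
def cpat2 (k : Fin 3) : Fin 4 := fn4 [1, 0, 2] k.val
def bcol (d : Fin 12 × Fin 3) : Fin 4 := fn4 [2, 1, 0, 1, 2, 0, 1, 0, 2, 1, 2, 0, 0, 2, 1, 1, 2, 0, 0, 2, 1, 2, 0, 1, 1, 2, 0, 1, 0, 2, 0, 1, 2, 1, 0, 2] (3 * d.1.val + d.2.val)
def bcol2 (d : Fin 12 × Fin 3) : Fin 4 := fn4 [2, 1, 0, 1, 2, 0, 1, 0, 2, 1, 2, 0, 0, 1, 2, 0, 1, 2, 0, 1, 2, 2, 0, 1, 2, 0, 3, 2, 0, 1, 2, 1, 0, 2, 3, 1] (3 * d.1.val + d.2.val)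
def fpat (k : Fin 3) : ℤ := ([1, 1, -2] : List ℤ).getD k.val 0
def bflow (d : Fin 12 × Fin 3) : ℤ := ([1, -2, 1, 1, -5, 4, -2, 7, -5, 2, 5, -7, -1, -1, 2, -1, -1, 2, -4, 1, 3, 5, -2, -3, -2, 1, 1, 2, 2, -4, -2, 3, -1, -3, -1, 4] : List ℤ).getD (3 * d.1.val + d.2.val) 0

/-- the properties of the graphs of the family, with the vertex `v` at which the next block is
inserted -/
structure Good {V : Type} [Fintype V] [DecidableEq V] (G : CubicGraph V) (v : V) (n : ℕ) :
    Prop where
  hv : ∀ i, (G.inv (v, i)).1 ≠ v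
  col : ∃ c : V × Fin 3 → Fin 4, (∀ d, c (G.inv d) = c d) ∧
    (∀ w, w ≠ v → ∀ i j, i ≠ j → c (w, i) ≠ c (w, j)) ∧ (∀ i, c (v, i) = cpat i) ∧
    #{d : V × Fin 3 | c d = 3} = 2
  flow : ∃ φ : V × Fin 3 → ℤ, (∀ d, φ (G.inv d) = - φ d) ∧ (∀ w, ∑ i, φ (w, i) = 0) ∧
    (∀ d, φ d ≠ 0) ∧ ∀ i, φ (v, i) = fpat i
  zeros : ∀ φ, G.FourFlow φ → 2 * n ≤ #{d : V × Fin 3 | φ d = 0}

section
variable {V : Type} [Fintype V] [DecidableEq V] {G : CubicGraph V} {v : V} {n : ℕ}

theorem Good.step (h : Good G v n) : Good (ext G v h.hv) (Sum.inl v) (n + 1) := by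
  refine ⟨?_, ?_, ?_, ?_⟩
  · intro i
    change (extInv G v (Sum.inl v, i)).1 ≠ Sum.inl v
    rw [extInv_v]; simp
  · obtain ⟨c, c1, c2, c3, c4⟩ := h.col
    refine ⟨glue v c cpat bcol, ?_, ?_, ?_, ?_⟩
    · intro d
      exact glue_rel G v h.hv id (fun _ => rfl) c1 c3 (by decide +kernel) (by decide +kernel)
        (by decide +kernel) d
    · rintro (w | a) hw i j hij
      · have hw' : w ≠ v := fun e => hw (by rw [e])
        simp only [glue, hw', if_false]
        exact c2 w hw' i j hij
      · have : ∀ a i j, i ≠ j → bcol (a, i) ≠ bcol (a, j) := by decide +kernel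
        exact this a i j hij
    · intro i; simp [glue]
    · rw [card_split]
      have e1 : #{d : V × Fin 3 | glue v c cpat bcol (Sum.inl d.1, d.2) = 3}
          = #{d : V × Fin 3 | c d = 3} := by
        congr 1
        apply Finset.filter_congr
        rintro ⟨w, i⟩ _
        by_cases hw : w = v
        · subst hw; simp only [glue, if_true, c3]
        · simp only [glue, hw, if_false]
      have e2 : #{d : Fin 12 × Fin 3 | glue v c cpat bcol (Sum.inr d.1, d.2) = 3} = 0 := by
        change #{d : Fin 12 × Fin 3 | bcol d = 3} = 0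
        decide +kernel
      rw [e1, e2, c4]
  · obtain ⟨φ, f1, f2, f3, f4⟩ := h.flow
    refine ⟨glue v φ fpat bflow, ?_, ?_, ?_, ?_⟩
    · intro d
      exact glue_rel G v h.hv (fun x => -x) (fun x => neg_neg x) f1 f4 (by decide +kernel)
        (by decide +kernel) (by decide +kernel) d
    · rintro (w | a)
      · by_cases hw : w = v
        · subst hw
          have := f2 w
          simp only [f4] at this
          simpa only [glue, if_true] using this
        · simpa only [glue, hw, if_false] using f2 w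
      · have : ∀ a, ∑ i, bflow (a, i) = 0 := by decide +kernel
        exact this a
    · rintro ⟨w | a, i⟩
      · by_cases hw : w = v
        · subst hw
          have := f3 (w, i)
          rw [f4] at this
          simpa only [glue, if_true] using this
        · simpa only [glue, hw, if_false] using f3 (w, i)
      · have : ∀ d, bflow d ≠ 0 := by decide +kernel
        exact this _
    · intro i; simp [glue]
  · intro φ hφ
    exact zeros_ext G v h.hv h.zeros hφ

theorem even_darts (G : CubicGraph V) : 2 ∣ Fintype.card (V × Fin 3) := by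
  have := Finset.sum_involution (s := (univ : Finset (V × Fin 3)))
    (f := fun _ : V × Fin 3 => (1 : ZMod 2)) (fun d _ => G.inv d) (by intros; decide)
    (by intro d _ _; exact G.inv_ne d) (by simp) (by intro d _; exact G.inv_inv d)
  rw [Finset.sum_const, nsmul_eq_mul, mul_one, Finset.card_univ] at this
  exact (ZMod.natCast_eq_zero_iff _ 2).1 this

theorem Good.close (h : Good G v n) : (ext G v h.hv).Bridgeless ∧
    (ext G v h.hv).resistance ≤ 2 ∧ n + 1 ≤ (ext G v h.hv).flowResistance := by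
  refine ⟨?_, ?_, ?_⟩
  · obtain ⟨φ, f1, f2, f3, -⟩ := h.step.flow
    exact bridgeless_of_flow _ f1 f2 f3
  · apply Nat.sInf_le
    obtain ⟨c, c1, c2, c3, c4⟩ := h.col
    refine ⟨glue v c cpat2 bcol2, 3, ⟨?_, ?_⟩, ?_⟩
    · intro d
      exact glue_rel G v h.hv id (fun _ => rfl) c1 c3 (by decide +kernel) (by decide +kernel)
        (by decide +kernel) d
    · rintro (w | a) i j hij
      · by_cases hw : w = v
        · have : ∀ i j, i ≠ j → cpat2 i ≠ cpat2 j := by decide +kernel
          subst hw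
          simpa only [glue, if_true] using this i j hij
        · simp only [glue, hw, if_false]
          exact c2 w hw i j hij
      · have : ∀ a i j, i ≠ j → bcol2 (a, i) ≠ bcol2 (a, j) := by decide +kernel
        exact this a i j hij
    · rw [card_split]
      have e1 : #{d : V × Fin 3 | glue v c cpat2 bcol2 (Sum.inl d.1, d.2) = 3}
          = #{d : V × Fin 3 | c d = 3} := by
        congr 1
        apply Finset.filter_congr
        rintro ⟨w, i⟩ _
        by_cases hw : w = v
        · subst hw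
          have n1 : ∀ i, cpat i ≠ 3 := by decide +kernel
          have n2 : ∀ i, cpat2 i ≠ 3 := by decide +kernel
          simp only [glue, if_true, c3]
          exact ⟨fun e => absurd e (n2 i), fun e => absurd e (n1 i)⟩
        · simp only [glue, hw, if_false]
      have e2 : #{d : Fin 12 × Fin 3 | glue v c cpat2 bcol2 (Sum.inr d.1, d.2) = 3} = 2 := by
        change #{d : Fin 12 × Fin 3 | bcol2 d = 3} = 2
        decide +kernel
      rw [e1, e2, c4]
  · apply le_csInf
    · obtain ⟨k, hk⟩ := even_darts (ext G v h.hv)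
      refine ⟨k, fun _ => 0, ⟨by simp, by simp, by simp⟩, ?_⟩
      rw [← hk]; simp
    · rintro k ⟨φ, hφ, hk⟩
      have := h.step.zeros φ hφ
      omega

end

/-- the Petersen graph -/
def P0 : CubicGraph (Fin 10) where
  inv := pinv
  inv_inv := by decide +kernel
  inv_ne := by decide +kernel

theorem good0 : Good P0 0 1 := by
  refine ⟨by decide +kernel, ?_, ?_, ?_⟩
  · exact ⟨fun d => fn4 [2, 1, 1, 2, 0, 1, 0, 1, 2, 1, 2, 0, 1, 2, 0, 1, 0, 2, 1, 3, 2, 2, 0, 1, 0, 2, 3, 0, 2, 1] (3 * d.1.val + d.2.val), by decide +kernel, by decide +kernel,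
      by decide +kernel, by decide +kernel⟩
  · exact ⟨fun d => ([1, 1, -2, -1, 4, -3, -4, 3, 1, -3, 2, 1, -1, -2, 3, 2, 1, -3, 3, 2, -5, -1, -1, 2, -1, 3, -2, -3, 5, -2] : List ℤ).getD (3 * d.1.val + d.2.val) 0, by decide +kernel,
      by decide +kernel, by decide +kernel, by decide +kernel⟩
  · intro φ hφ
    obtain ⟨x, hx⟩ := piece P0 id id (by rintro ⟨q, i⟩ _; exact ⟨i, rfl⟩) (by decide +kernel)
      (by decide +kernel) (fun _ => rfl) hφ
    have hsub : ({x, P0.inv x} : Finset (Fin 10 × Fin 3)) ⊆ univ.filter fun d => φ d = 0 := by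
      intro d hd
      simp only [mem_insert, mem_singleton] at hd
      simp only [mem_filter, mem_univ, true_and]
      rcases hd with rfl | rfl
      · exact hx
      · rw [hφ.1]; simpa using hx
    have := Finset.card_le_card hsub
    rw [Finset.card_pair (P0.inv_ne x).symm] at this
    omega

theorem exists_good (n : ℕ) : ∃ (V : Type) (_ : Fintype V) (_ : DecidableEq V)
    (G : CubicGraph V) (v : V), Good G v (n + 1) := by
  induction n with
  | zero => exact ⟨Fin 10, inferInstance, inferInstance, P0, 0, good0⟩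
  | succ n ih =>
    obtain ⟨V, _, _, G, v, h⟩ := ih
    exact ⟨V ⊕ Fin 12, inferInstance, inferInstance, _, _, h.step⟩

/-- For every `N` there is a bridgeless cubic graph with resistance at most `2` and flow
resistance at least `N`. -/
theorem result (N : ℕ) : ∃ (V : Type) (_ : Fintype V) (_ : DecidableEq V) (G : CubicGraph V),
    G.Bridgeless ∧ G.resistance ≤ 2 ∧ N ≤ G.flowResistance := by
  obtain ⟨V, _, _, G, v, h⟩ := exists_good N
  exact ⟨V ⊕ Fin 12, inferInstance, inferInstance, _, h.close.1, h.close.2.1,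
    by have := h.close.2.2; omega⟩

end Pool.Agent.Results.MP_c254db_co.UnboundedRatio
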